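import Pool.Agent.N762.RC2.UPow
import Pool.Agent.N762.RC.RFin

/-!
Models of tame radical extensions of the inverse images of varieties of bounded degree under the
maps which raise the coordinates to arbitrary powers: the bound depends on the dimension.
-/

set_option autoImplicit false
set_option linter.unusedVariables false
set_option linter.unusedSimpArgs false
set_option linter.unusedSectionVars false

universe u

open MvPolynomial Pool.Agent.W558 Pool.Agent.W418.LCI Pool.Agent.N98 Pool.Agent.N762.RC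

namespace Pool.Agent.N762.RC2

section main

/-- **Arbitrary powers of the coordinates**, the relative version. -/
theorem uall_models (p : ℕ) [Fact p.Prime] {k F E K : Type u} [Field k] [CharP k p] [Field F]
    [Infinite F]
    [Field E] [Field K] [Algebra k E] [Algebra F E] [Algebra.IsAlgebraic F E]
    [Algebra E K] [Algebra F K] [IsScalarTower F E K] [Algebra k K] [IsScalarTower k E K]
    (hE : HasLM k E)
    {N : ℕ} (y : Fin N → K) (m : Fin N → ℕ) (e : ℕ) (hm : ∀ i, ¬ p ^ (e + 1) ∣ m i)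
    (ρ : F →+* E) (hρ : ∀ a, (ρ a) ^ p ^ e = algebraMap F E a)
    (htop : IntermediateField.adjoin E (Set.range y) = ⊤) (d δ C0 : ℕ)
    (htr : Algebra.trdeg F K = d)
    (hδ : ∀ t : ℕ, d.factorial * Module.finrank F (img F (fun j => y j ^ m j) t) ≤
      δ * (t + C0) ^ d) (s : ℕ) (hs : 1 ≤ s)
    (hD : ((Nat.factorial ((s * δ) ^ 2 ^ d) : ℕ) : k) ≠ 0)
    (B : Type) [Finite B] (G : B → MvPolynomial (Fin N) F)
    (hG : ∀ b, aeval (fun i => y i ^ m i) (G b) ≠ 0) (hdeg : ∀ b, (G b).totalDegree ≤ s)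
    (C' : Type) [Finite C'] (c : C' → E) (hc : ∀ i, c i ≠ 0) :
    ∃ (T I : Type) (_ : Finite T) (_ : Fintype I) (M : LM (⊥ : Subalgebra k K) ⊤ T I),
      Frc M ∧ (∀ b, IsBr M (aeval (fun i => y i ^ m i) (G b))) ∧
      (∀ i, IsBr M (algebraMap E K (c i))) ∧ ∀ i, y i ≠ 0 → IsBr M (y i) := by
  classical
  have := Fintype.ofFinite B
  have := Fintype.ofFinite C'
  have hEp : CharP E p := charP_of_injective_algebraMap (algebraMap k E).injective p
  have hm0 : ∀ i, m i ≠ 0 := by
    intro i h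
    apply hm i
    rw [h]
    exact dvd_zero _
  have hfac : ∀ i, ∃ e' n', ¬ p ∣ n' ∧ m i = p ^ e' * n' := fun i =>
    Nat.exists_eq_pow_mul_and_not_dvd (hm0 i) p (Fact.out : p.Prime).ne_one
  choose ε n hn hmn using hfac
  have hε : ∀ i, ε i ≤ e := by
    intro i
    by_contra h
    apply hm i
    rw [hmn i]
    exact Dvd.dvd.mul_right (pow_dvd_pow p (by omega)) _
  have hn0 : ∀ i, n i ≠ 0 := by
    intro i h
    apply hn i
    rw [h]
    exact dvd_zero _
  let z : Fin N → K := fun i => y i ^ n i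
  let K1 : IntermediateField E K := IntermediateField.adjoin E (Set.range z)
  have hz : ∀ i, z i ∈ K1 := fun i => IntermediateField.subset_adjoin _ _ ⟨i, rfl⟩
  let z1 : Fin N → K1 := fun i => ⟨z i, hz i⟩
  have hw : ∀ i, ((z1 i ^ p ^ ε i : K1) : K) = y i ^ m i := by
    intro i
    change (y i ^ n i) ^ p ^ ε i = y i ^ m i
    rw [← pow_mul, hmn i, mul_comm]
  have htop1 : IntermediateField.adjoin E (Set.range z1) = ⊤ := by
    apply IntermediateField.lift_injective K1
    rw [IntermediateField.lift_adjoin, IntermediateField.lift_top, ← Set.range_comp]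
    rfl
  obtain ⟨htop', halg⟩ := alg_of_pow y htop K1 n hn0 hz
  have hs1 : IsScalarTower F K1 K := IsScalarTower.of_algebraMap_eq fun r => rfl
  have hs2 : IsScalarTower k K1 K := IsScalarTower.of_algebraMap_eq fun r => rfl
  have hs3 : IsScalarTower k E K1 := IsScalarTower.of_algebraMap_eq fun r =>
    Subtype.ext (IsScalarTower.algebraMap_apply k E K r)
  have hs4 : IsScalarTower F E K1 := IsScalarTower.of_algebraMap_eq fun r =>
    Subtype.ext (IsScalarTower.algebraMap_apply F E K r)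
  have htr1 : Algebra.trdeg F K1 = d := by
    have h1 : Algebra.trdeg F K1 + Algebra.trdeg K1 K = Algebra.trdeg F K := trdeg_add_eq F K1
    have h2 : Algebra.trdeg K1 K = 0 := trdeg_eq_zero
    rw [← htr, ← h1, h2, add_zero]
  have hδ1 : ∀ t : ℕ, d.factorial * Module.finrank F (img F (fun j => z1 j ^ p ^ ε j) t) ≤
      δ * (t + C0) ^ d := by
    intro t
    rw [finrank_img_val' K1]
    have h1 : (fun i => ((z1 i ^ p ^ ε i : K1) : K)) = fun i => y i ^ m i := funext hw
    rw [h1]
    exact hδ t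
  have hval : ∀ g : MvPolynomial (Fin N) F,
      algebraMap K1 K (aeval (fun i => z1 i ^ p ^ ε i) g) = aeval (fun i => y i ^ m i) g := by
    intro g
    have h1 : (fun i => ((K1.val : K1 →ₐ[E] K).restrictScalars F) (z1 i ^ p ^ ε i)) =
        fun i => y i ^ m i := funext hw
    have h2 := congrArg (fun f : MvPolynomial (Fin N) F →ₐ[F] K => f g)
      (comp_aeval (R := F) (fun i => z1 i ^ p ^ ε i) ((K1.val : K1 →ₐ[E] K).restrictScalars F))
    change ((K1.val : K1 →ₐ[E] K).restrictScalars F) (aeval (fun i => z1 i ^ p ^ ε i) g) =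
      aeval _ g at h2
    rw [h1] at h2
    exact h2
  obtain ⟨T, I, hT, hI, M, hFr, hMb, hMc, hMz⟩ := upow_models p hE z1 ε e hε ρ hρ htop1 d δ C0
    htr1 hδ1 s hs hD B G (fun b h => hG b (by rw [← hval, h, map_zero])) hdeg C' c hc
  -- the tame radicals
  let J := {i : Fin N // y i ≠ 0}
  let eq : Fin (Fintype.card J) ≃ J := (Fintype.equivFin J).symm
  let g : (B ⊕ C') ⊕ J → K1 := Sum.elim
    (Sum.elim (fun b => aeval (fun i => z1 i ^ p ^ ε i) (G b)) fun i => algebraMap E K1 (c i))
    fun i => z1 i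
  have hg : ∀ b, IsBr M (g b) := by
    rintro ((b | i) | i)
    · exact hMb b
    · exact hMc i
    · refine hMz i.1 fun h => ?_
      apply pow_ne_zero (n i.1) i.2
      exact congrArg Subtype.val h
  have hgen : IntermediateField.adjoin K1 (Set.range fun j => y (eq j)) = ⊤ := by
    rw [eq_top_iff, ← htop', IntermediateField.adjoin_le_iff]
    rintro _ ⟨i, rfl⟩
    by_cases h : y i = 0
    · rw [h]
      exact zero_mem _
    · refine IntermediateField.subset_adjoin K1 _ ⟨eq.symm ⟨i, h⟩, ?_⟩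
      change y (eq (eq.symm ⟨i, h⟩)) = y i
      rw [Equiv.apply_symm_apply]
  obtain ⟨T', I', hT', hI', M', hFr', hM1, hM2⟩ := kummer_isBr p M hFr g hg
    (fun j => y (eq j)) (fun j => (eq j).2) (fun j => n (eq j))
    (fun j h => hn (eq j) ((CharP.cast_eq_zero_iff k p _).1 h))
    (fun j => Pi.single (Sum.inr (eq j)) 1) (fun j => by
      rw [Finset.prod_eq_single (Sum.inr (eq j))]
      · rw [Pi.single_eq_same, zpow_one]
        rfl
      · intro l _ hl
        rw [Pi.single_eq_of_ne hl, zpow_zero]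
      · intro h
        exact absurd (Finset.mem_univ _) h) hgen
  refine ⟨T', I', hT', hI', M', hFr', fun b => ?_, fun i => ?_, fun i hi => ?_⟩
  · rw [← hval]
    exact hM1 (Sum.inl (Sum.inl b))
  · exact hM1 (Sum.inl (Sum.inr i))
  · have h1 := hM2 (eq.symm ⟨i, hi⟩)
    rw [Equiv.apply_symm_apply] at h1
    exact h1

/-- **Tame radical extensions.** The products are given by families of boundary functions. -/
theorem ufin (p : ℕ) [Fact p.Prime] {k F E K0 K : Type u} [Field k] [CharP k p] [Field F]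
    [Infinite F]
    [Field E] [Field K0] [Algebra k E] [Algebra F E] [Algebra.IsAlgebraic F E]
    [Algebra E K0] [Algebra F K0] [IsScalarTower F E K0] [Algebra k K0] [IsScalarTower k E K0]
    (hE : HasLM k E)
    {N : ℕ} (y : Fin N → K0) (m : Fin N → ℕ) (e : ℕ) (hm : ∀ i, ¬ p ^ (e + 1) ∣ m i)
    (hF : ∀ a : F, ∃ b : E, b ^ p ^ e = algebraMap F E a)
    (htop : IntermediateField.adjoin E (Set.range y) = ⊤) (d δ C0 : ℕ)
    (htr : Algebra.trdeg F (IntermediateField.adjoin F (Set.range fun i => y i ^ m i)) = d)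
    (hδ : ∀ t : ℕ, d.factorial * Module.finrank F (img F (fun j => y j ^ m j) t) ≤
      δ * (t + C0) ^ d) (s0 : ℕ) (hs0 : 1 ≤ s0)
    (hD : ((Nat.factorial ((s0 * δ) ^ 2 ^ d) : ℕ) : k) ≠ 0)
    [Field K] [Algebra K0 K] [Algebra k K] [IsScalarTower k K0 K]
    (P : Type) [Finite P] (z : P → K0) (hz0 : ∀ b, z b ≠ 0)
    (c : P → E) (a : P → Fin N → ℤ) (q : P → ℕ) (G : (b : P) → Fin (q b) → MvPolynomial (Fin N) F)
    (e' : (b : P) → Fin (q b) → ℤ) (hG : ∀ b i, (G b i).totalDegree ≤ s0)
    (hz : ∀ b, z b = algebraMap E K0 (c b) * (∏ i, y i ^ a b i) *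
      ∏ i, (aeval (fun i => y i ^ m i) (G b i)) ^ e' b i)
    {s : ℕ} (w : Fin s → K) (hw0 : ∀ j, w j ≠ 0) (n : Fin s → ℕ) (hn : ∀ j, ¬ p ∣ n j)
    (bw : Fin s → P) (hw : ∀ j, w j ^ n j = algebraMap K0 K (z (bw j)))
    (hgen : IntermediateField.adjoin K0 (Set.range w) = ⊤) :
    ∃ (T I : Type) (_ : Finite T) (_ : Fintype I) (M : LM (⊥ : Subalgebra k K) ⊤ T I),
      Frc M ∧ (∀ b, IsBr M (algebraMap K0 K (z b))) ∧ ∀ j, IsBr M (w j) := by
  classical
  have := Fintype.ofFinite P
  have hEp : CharP E p := charP_of_injective_algebraMap (algebraMap k E).injective p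
  obtain ⟨ρ, hρ⟩ := exists_rho p e hF
  have hm0 : ∀ i, m i ≠ 0 := by
    intro i h
    apply hm i
    rw [h]
    exact dvd_zero _
  have htr' := trdeg_of_pow y htop m hm0 d htr
  let H : (Σ b, Fin (q b)) → K0 := fun i => aeval (fun i => y i ^ m i) (G i.1 i.2)
  obtain ⟨T, I, hT, hI, M, hFr, hM1, hM2, hM3⟩ := uall_models p hE y m e hm ρ hρ htop d δ C0 htr'
    hδ s0 hs0 hD {i : Σ b, Fin (q b) // H i ≠ 0} (fun i => G i.1.1 i.1.2) (fun i => i.2)
    (fun i => hG i.1.1 i.1.2) {b : P // c b ≠ 0} (fun b => c b.1) (fun b => b.2)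
  have hzb : ∀ b, IsBr M (z b) := by
    intro b
    have hj := hz0 b
    rw [hz b] at hj ⊢
    rw [mul_ne_zero_iff, mul_ne_zero_iff, Finset.prod_ne_zero_iff, Finset.prod_ne_zero_iff] at hj
    refine IsBr.mul (IsBr.mul ?_ (IsBr.prod _ _ fun i _ => ?_)) (IsBr.prod _ _ fun i _ => ?_)
    · refine hM2 ⟨b, fun h => hj.1.1 ?_⟩
      rw [h, map_zero]
    · by_cases h0 : y i = 0
      · have h1 : a b i = 0 := by
          by_contra h2
          apply hj.1.2 i (Finset.mem_univ i)
          rw [h0, zero_zpow _ h2]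
        rw [h1, zpow_zero]
        exact IsB.one.br
      · exact (hM3 i h0).zpow _
    · by_cases h0 : H ⟨b, i⟩ = 0
      · have h1 : e' b i = 0 := by
          by_contra h2
          apply hj.2 i (Finset.mem_univ i)
          change H ⟨b, i⟩ ^ e' b i = 0
          rw [h0, zero_zpow _ h2]
        rw [h1, zpow_zero]
        exact IsB.one.br
      · exact (hM1 ⟨⟨b, i⟩, h0⟩).zpow _
  obtain ⟨T', I', hT', hI', M', hFr', hM1', hM2'⟩ := kummer_isBr p M hFr z hzb w hw0 n
    (fun j h => hn j ((CharP.cast_eq_zero_iff k p _).1 h))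
    (fun j => Pi.single (bw j) 1) (fun j => by
      rw [Finset.prod_eq_single (bw j)]
      · rw [Pi.single_eq_same, zpow_one, hw]
      · intro l _ hl
        rw [Pi.single_eq_of_ne hl, zpow_zero]
      · intro h
        exact absurd (Finset.mem_univ _) h) hgen
  exact ⟨T', I', hT', hI', M', hFr', hM1', hM2'⟩

end main

end Pool.Agent.N762.RC2
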