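import Pool.Agent.N762.RC2.Sep
import Pool.Agent.N98.Spz

/-!
General projections with explicit coordinates, homogenization, and relations of algebraically
independent coordinates.
-/

set_option autoImplicit false
set_option linter.unusedVariables false
set_option linter.unusedSectionVars false

universe u

open Pool.Agent.W558 Pool.Agent.W498.Tor Pool.Agent.W418.LCI Pool.Agent.N98 Pool.Agent.N762.RC

namespace Pool.Agent.N762.RC2

section insep

/-- A separable element with a power, with exponent a power of the characteristic, in the base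
field. -/
lemma mem_of_pow (p : ℕ) [Fact p.Prime] {E Ω : Type*} [Field E] [Field Ω] [Algebra E Ω]
    [CharP Ω p] (L : IntermediateField E Ω) {z : Ω} (hz : IsSeparable L z) (j : ℕ)
    (hj : z ^ p ^ j ∈ L) : z ∈ L := by
  have hLp : CharP L p := by
    exact (algebraMap L Ω).charP (algebraMap L Ω).injective p
  have : ExpChar L p := ExpChar.prime Fact.out
  have h1 : z ∈ separableClosure L Ω ⊓ perfectClosure L Ω :=
    ⟨mem_separableClosure_iff.2 hz, (mem_perfectClosure_iff_pow_mem p).2 ⟨j, ⟨z ^ p ^ j, hj⟩, rfl⟩⟩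
  rw [separableClosure_inf_perfectClosure, IntermediateField.mem_bot] at h1
  obtain ⟨y, rfl⟩ := h1
  exact y.2

end insep

section spz

open MvPolynomial

/-- **General projections**, with explicit coordinates. -/
theorem spz2 {F K : Type u} [Field F] [Field K] [Algebra F K] [Infinite F] {N r : ℕ}
    (t : Fin N → K) (u : Fin r → K) (hu : AlgebraicIndependent F u) (hut : ∀ i, u i ∈ img F t 1)
    (δ C0 : ℕ)
    (hδ : ∀ s : ℕ, r.factorial * Module.finrank F (img F t s) ≤ δ * (s + C0) ^ r)
    (hchar : ((Nat.factorial δ : ℕ) : F) ≠ 0) :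
    ∃ (c : Fin N → F) (P W : MvPolynomial (Fin (r + 1)) F)
      (V : Fin N → MvPolynomial (Fin (r + 1)) F), Irreducible P ∧ P.totalDegree ≤ δ ∧
      (∀ g, aeval (sy t u c) g = 0 ↔ P ∣ g) ∧ W.totalDegree ≤ δ ∧ aeval (sy t u c) W ≠ 0 ∧
      (∀ j, (V j).totalDegree ≤ δ) ∧
      ∀ j, aeval (sy t u c) (V j) + aeval (sy t u c) W * t j = 0 := by
  classical
  have hδ' : ∀ s : ℕ, (Fintype.card (Fin r)).factorial * Module.finrank F (img F t s) ≤
      δ * (s + C0) ^ Fintype.card (Fin r) := by
    intro s
    rw [Fintype.card_fin]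
    exact hδ s
  let z : Fin r → MvPolynomial (Fin r) F := fun i => X i
  have hz : ∀ i, aeval u (z i) = u i := fun i => aeval_X _ _
  have hzd : ∀ i, (z i).totalDegree ≤ 1 := fun i => (totalDegree_X _).le
  obtain ⟨Φ, hΦd, hΦ, hΦ'⟩ := gen t u hu hut δ C0 hδ' hchar
  obtain ⟨c, hc⟩ : ∃ c : Fin N → F,
      eval (fun j => algebraMap F K (c j)) (gev t u (pderiv none Φ)) ≠ 0 := by
    by_contra hcon
    push Not at hcon
    apply hΦ'
    refine funext_set (fun _ => Set.range (algebraMap F K)) (fun _ =>
      Set.infinite_range_of_injective (algebraMap F K).injective) fun y hy => ?_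
    choose c hc using fun j => hy j (Set.mem_univ j)
    have hyc : y = fun j => algebraMap F K (c j) := _root_.funext fun j => (hc j).symm
    rw [map_zero, hyc, hcon c]
  have hy : AlgebraicIndependent F fun i : Fin r => sy t u c i.succ := hu
  have hW : aeval (sy t u c) (sp z c (pderiv none Φ)) ≠ 0 := by
    rw [aeval_sp t u u z c hz]
    exact hc
  have hU : aeval (sy t u c) (sp z c Φ) = 0 := by
    rw [aeval_sp t u u z c hz, hΦ, map_zero]
  have hU0 : sp z c Φ ≠ 0 := by
    intro h
    apply hW
    rw [← pderiv_sp, h, map_zero, map_zero]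
  obtain ⟨P, hP, hker⟩ := exists_gen_fin (sy t u c) hy _ hU0 hU
  refine ⟨c, P, sp z c (pderiv none Φ), fun j => sp z c (dc j Φ), hP, ?_, hker, ?_, hW,
    fun j => ?_, fun j => ?_⟩
  · obtain ⟨q, hq⟩ := (hker _).1 hU
    have hq0 : q ≠ 0 := by
      rintro rfl
      exact hU0 (by rw [hq, mul_zero])
    have h1 := (totalDegree_sp_le z c hzd Φ).trans hΦd
    rw [hq, totalDegree_mul_of_isDomain hP.ne_zero hq0] at h1
    omega
  · exact (totalDegree_sp_le z c hzd _).trans ((totalDegree_pderiv_le' none Φ).trans hΦd)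
  · exact (totalDegree_sp_le z c hzd _).trans ((totalDegree_dc_le j Φ).trans hΦd)
  · have h1 := pderiv_gev t u j Φ
    rw [hΦ, map_zero] at h1
    have h2 := congrArg (eval (fun j => algebraMap F K (c j))) h1
    rw [map_zero, map_add, map_mul, eval_C] at h2
    rw [aeval_sp t u u z c hz, aeval_sp t u u z c hz]
    exact h2.symm

/-- Homogenization. -/
theorem homog {F K : Type*} [Field F] [Field K] [Algebra F K] {N : ℕ} {τ : Type*}
    (t : Fin N → K) (y : τ → K) (V : Fin N → MvPolynomial τ F) (W : MvPolynomial τ F) (δ s : ℕ)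
    (hV : ∀ j, (V j).totalDegree ≤ δ) (hW : W.totalDegree ≤ δ)
    (h : ∀ j, aeval y (V j) + aeval y W * t j = 0) (Q : MvPolynomial (Fin N) F)
    (hQ : Q.totalDegree ≤ s) :
    ∃ H : MvPolynomial τ F, H.totalDegree ≤ s * δ ∧
      aeval y H = aeval t Q * (aeval y W) ^ s := by
  classical
  refine ⟨∑ m ∈ Q.support, C (coeff m Q) * (∏ i, (-V i) ^ m i) * W ^ (s - ∑ i, m i), ?_, ?_⟩
  · refine totalDegree_finsetSum_le fun m hm => ?_
    have hms : ∑ i, m i ≤ s := by
      refine le_trans ?_ ((le_totalDegree hm).trans hQ)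
      rw [Finsupp.sum_fintype _ _ fun _ => rfl]
    refine (totalDegree_mul _ _).trans ?_
    have h1 : (C (coeff m Q) * ∏ i, (-V i) ^ m i).totalDegree ≤ (∑ i, m i) * δ := by
      refine (totalDegree_mul _ _).trans ?_
      rw [totalDegree_C, zero_add]
      refine (totalDegree_finsetProd _ _).trans ?_
      rw [Finset.sum_mul]
      refine Finset.sum_le_sum fun i _ => ?_
      refine (totalDegree_pow _ _).trans (Nat.mul_le_mul_left _ ?_)
      rw [totalDegree_neg]
      exact hV i
    have h2 : (W ^ (s - ∑ i, m i)).totalDegree ≤ (s - ∑ i, m i) * δ :=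
      (totalDegree_pow _ _).trans (Nat.mul_le_mul_left _ hW)
    calc _ ≤ (∑ i, m i) * δ + (s - ∑ i, m i) * δ := add_le_add h1 h2
      _ = s * δ := by rw [← add_mul, Nat.add_sub_cancel' hms]
  · have hneg : ∀ i, aeval y (-V i) = aeval y W * t i := by
      intro i
      rw [map_neg, neg_eq_iff_add_eq_zero]
      exact h i
    rw [map_sum, aeval_def t, eval₂_eq', Finset.sum_mul]
    refine Finset.sum_congr rfl fun m hm => ?_
    have hms : ∑ i, m i ≤ s := by
      refine le_trans ?_ ((le_totalDegree hm).trans hQ)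
      rw [Finsupp.sum_fintype _ _ fun _ => rfl]
    rw [map_mul, map_mul, aeval_C, map_prod, map_pow]
    have h1 : ∏ i, aeval y ((-V i) ^ m i) = (aeval y W) ^ (∑ i, m i) * ∏ i, t i ^ m i := by
      rw [← Finset.prod_pow_eq_pow_sum, ← Finset.prod_mul_distrib]
      refine Finset.prod_congr rfl fun i _ => ?_
      rw [map_pow, hneg, mul_pow]
    rw [h1]
    have h2 : (aeval y W) ^ s = (aeval y W) ^ (∑ i, m i) * (aeval y W) ^ (s - ∑ i, m i) := by
      rw [← pow_add, Nat.add_sub_cancel' hms]
    rw [h2]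
    ring

end spz

section rel

variable (p : ℕ) [Fact p.Prime] {E : Type u} [Field E] [CharP E p]

lemma rel_ind (D e : ℕ) : ∀ (n : ℕ) (ε : Fin n → ℕ) (K : Type u) [Field K] [Algebra E K]
    (x : Fin n → K), AlgebraicIndependent E x → Rel p E D e n ε K x := by
  intro n
  induction n with
  | zero => intro ε K _ _ x _; trivial
  | succ n ih =>
    intro ε K _ _ x hx
    exact ⟨Or.inl (hd_tr hx), ih _ _ _ (tl_ind hx)⟩

end rel

section map

open MvPolynomial

variable (p : ℕ) [Fact p.Prime] {F E K : Type u} [Field F] [Field E] [Field K] [CharP E p]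
  [Algebra F E] [Algebra E K] [Algebra F K] [IsScalarTower F E K] {n : ℕ}

lemma map_fse2 (ρ : F →+* E) {e : ℕ} (hρ : ∀ a, (ρ a) ^ p ^ e = algebraMap F E a) (x : Fin n → K)
    (ε : Fin n → ℕ) (P : MvPolynomial (Fin (n + 1)) F) :
    ((finSuccEquiv E n) (MvPolynomial.map ρ P)).map (ev p x e ε) =
      (finSuccEquiv F n P).map
        ((aeval (fun c => x c ^ p ^ ε c) : MvPolynomial (Fin n) F →ₐ[F] K) :
          MvPolynomial (Fin n) F →+* K) := by
  have h : ((Polynomial.mapRingHom (ev p x e ε)).comp
      ((finSuccEquiv E n) : MvPolynomial (Fin (n + 1)) E →+*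
        Polynomial (MvPolynomial (Fin n) E))).comp (MvPolynomial.map ρ) =
      (Polynomial.mapRingHom ((aeval (fun c => x c ^ p ^ ε c) :
        MvPolynomial (Fin n) F →ₐ[F] K) : MvPolynomial (Fin n) F →+* K)).comp
        ((finSuccEquiv F n) : MvPolynomial (Fin (n + 1)) F →+*
          Polynomial (MvPolynomial (Fin n) F)) := by
    apply MvPolynomial.ringHom_ext
    · intro a
      have h1 : ∀ b : E, finSuccEquiv E n (C b) = Polynomial.C (C b) := fun b =>
        (finSuccEquiv E n).commutes b
      have h2 : finSuccEquiv F n (C a) = Polynomial.C (C a) :=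
        (finSuccEquiv F n).commutes a
      simp only [RingHom.comp_apply, RingHom.coe_coe]
      rw [MvPolynomial.map_C, h1, h2, Polynomial.coe_mapRingHom,
        Polynomial.coe_mapRingHom, Polynomial.map_C, Polynomial.map_C, ev_C, hρ, RingHom.coe_coe,
        aeval_C, ← IsScalarTower.algebraMap_apply]
    · intro o
      simp only [RingHom.comp_apply, RingHom.coe_coe]
      rw [MvPolynomial.map_X]
      refine Fin.cases ?_ (fun c => ?_) o
      · rw [finSuccEquiv_X_zero, finSuccEquiv_X_zero, Polynomial.coe_mapRingHom,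
          Polynomial.coe_mapRingHom, Polynomial.map_X, Polynomial.map_X]
      · rw [finSuccEquiv_X_succ, finSuccEquiv_X_succ, Polynomial.coe_mapRingHom,
          Polynomial.coe_mapRingHom, Polynomial.map_C, Polynomial.map_C, ev_X, RingHom.coe_coe,
          aeval_X]
  exact congrArg (fun f : MvPolynomial (Fin (n + 1)) F →+* Polynomial K => f P) h

end map

end Pool.Agent.N762.RC2
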