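import Pool.Agent.N98.AddC
import Pool.Agent.N98.Loc
import Pool.Agent.N98.Fin

/-!
Roots of boundary functions are boundary functions.
-/

set_option autoImplicit false
set_option linter.unusedVariables false
set_option linter.unusedSectionVars false

universe u

open Pool.Agent.W558 Pool.Agent.N98

namespace Pool.Agent.N762.RC2

section rad

variable {k A : Type u} [Field k] [CommRing A] [Algebra k A]

/-- A function with smooth zeros which divides a power divides the function. -/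
theorem dvd_of_dvd_pow [Algebra.Smooth k A] (y : A)
    (hy : ∀ (κ : Type u) [Field κ] [Algebra k κ] (φ : A →ₐ[k] κ), φ y = 0 →
      ∃ D : TV φ, D.D y ≠ 0) (b : A) (q : ℕ) (h : y ∣ b ^ q) : y ∣ b := by
  have hsm := smooth_quot y hy
  have hred := isReduced_of_smooth k (A ⧸ Ideal.span {y})
  have h1 : (Ideal.Quotient.mk (Ideal.span {y}) b) ^ q = 0 := by
    rw [← map_pow]
    exact Ideal.Quotient.eq_zero_iff_mem.2 (Ideal.mem_span_singleton.2 h)
  have h2 : Ideal.Quotient.mk (Ideal.span {y}) b = 0 := IsReduced.eq_zero _ ⟨q, h1⟩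
  exact Ideal.mem_span_singleton.1 (Ideal.Quotient.eq_zero_iff_mem.1 h2)

end rad

section ism

variable {k K : Type u} [Field k] [Field K] [Algebra k K] {I : Type}

lemma snc_option {A : Subalgebra k K} {x : I → K} (hS : SNC A x) (hx : ∀ i, x i ∈ A) (i : I)
    (y : I → K) (hyi : y i = 1) (hyl : ∀ l, l ≠ i → y l = x l) :
    SNC A (fun o : Option I => o.elim (x i) y) := by
  classical
  have hone : ∀ (κ : Type u) [Field κ] [Algebra k κ] (φ : A →ₐ[k] κ) (h1 : y i ∈ A),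
      φ ⟨y i, h1⟩ ≠ 0 := by
    intro κ _ _ φ h1 h0
    have e : (⟨y i, h1⟩ : A) = 1 := Subtype.ext hyi
    rw [e, map_one] at h0
    exact one_ne_zero h0
  intro κ _ _ φ o ho hφ
  cases o with
  | none =>
    obtain ⟨D, hD, hD'⟩ := hS κ φ i ho hφ
    refine ⟨D, hD, ?_⟩
    rintro (_ | l) hl hne hφl
    · exact absurd rfl hne
    · by_cases hli : l = i
      · subst hli
        exact absurd hφl (hone κ φ hl)
      · have e : (⟨y l, hl⟩ : A) = ⟨x l, hx l⟩ := Subtype.ext (hyl l hli)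
        change D.D ⟨y l, hl⟩ = 0
        change φ ⟨y l, hl⟩ = 0 at hφl
        rw [e] at hφl ⊢
        exact hD' l (hx l) hli hφl
  | some l0 =>
    by_cases hl0 : l0 = i
    · subst hl0
      exact absurd hφ (hone κ φ ho)
    · have e0 : (⟨y l0, ho⟩ : A) = ⟨x l0, hx l0⟩ := Subtype.ext (hyl l0 hl0)
      change φ ⟨y l0, ho⟩ = 0 at hφ
      rw [e0] at hφ
      obtain ⟨D, hD, hD'⟩ := hS κ φ l0 (hx l0) hφ
      refine ⟨D, ?_, ?_⟩
      · change D.D ⟨y l0, ho⟩ = 1
        rw [e0]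
        exact hD
      · rintro (_ | l) hl hne hφl
        · exact hD' i (hx i) (fun h => hl0 h.symm) hφl
        · by_cases hli : l = i
          · subst hli
            exact absurd hφl (hone κ φ hl)
          · have e : (⟨y l, hl⟩ : A) = ⟨x l, hx l⟩ := Subtype.ext (hyl l hli)
            change D.D ⟨y l, hl⟩ = 0
            change φ ⟨y l, hl⟩ = 0 at hφl
            rw [e] at hφl ⊢
            exact hD' l (hx l) (fun h => hne (by rw [h])) hφl

variable [Fintype I]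

/-- Roots of units are units in a normal ring. -/
lemma mem_of_pow_mem {A : Subalgebra k K} [Algebra.Smooth k A]
    (hfr : ∀ y : K, ∃ a ∈ A, ∃ b ∈ A, b ≠ 0 ∧ y = a * b⁻¹) {q : ℕ} (hq : q ≠ 0) {z : K}
    (hz : z ^ q ∈ A) : z ∈ A := by
  have hic : IsIntegrallyClosed A := Pool.Agent.W578.WD.Norm.main k A
  have hF : IsFractionRing A K := by
    refine IsFractionRing.of_field _ _ fun z => ?_
    obtain ⟨u, hu, v, hv, hv0, h⟩ := hfr z
    exact ⟨⟨u, hu⟩, ⟨v, hv⟩, by rw [h, div_eq_mul_inv]; rfl⟩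
  have h1 : IsIntegral A z := by
    refine IsIntegral.of_pow (Nat.pos_of_ne_zero hq) ?_
    have h3 : z ^ q = algebraMap A K ⟨z ^ q, hz⟩ := rfl
    rw [h3]
    exact isIntegral_algebraMap
  obtain ⟨w, hw⟩ := IsIntegrallyClosed.isIntegral_iff.1 h1
  rw [← hw]
  exact w.2

/-- **Roots of monomials.** -/
theorem isM_of_pow {A : Subalgebra k K} [Algebra.Smooth k A] {x : I → K} (hS : SNC A x)
    (hx : ∀ i, x i ∈ A) (hx0 : ∀ i, x i ≠ 0)
    (hfr : ∀ y : K, ∃ a ∈ A, ∃ b ∈ A, b ≠ 0 ∧ y = a * b⁻¹) {g : K} {γ : I → ℤ} {q : ℕ}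
    (hq : q ≠ 0) (h : IsM A x (g ^ q) γ) : IsM A x g (fun i => γ i / q) := by
  classical
  obtain ⟨w, hw0, hw, hw', hg⟩ := h
  have hqz : (q : ℤ) ≠ 0 := Int.natCast_ne_zero.2 hq
  set ρ : I → ℤ := fun i => γ i % q with hρ
  have hρ0 : ∀ i, 0 ≤ ρ i := fun i => Int.emod_nonneg _ hqz
  have hρq : ∀ i, ρ i < q := fun i => Int.emod_lt_of_pos _ (by positivity)
  set m : K := ∏ i, x i ^ (γ i / (q : ℤ)) with hm
  have hm0 : m ≠ 0 := Finset.prod_ne_zero_iff.2 fun i _ => zpow_ne_zero _ (hx0 i)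
  have hmq : (∏ i, x i ^ γ i) = m ^ q * ∏ i, x i ^ ρ i := by
    rw [hm, ← Finset.prod_pow, ← Finset.prod_mul_distrib]
    refine Finset.prod_congr rfl fun i _ => ?_
    rw [← zpow_natCast (x i ^ (γ i / (q : ℤ))), ← zpow_mul, ← zpow_add₀ (hx0 i)]
    congr 1
    have := Int.ediv_mul_add_emod (γ i) q
    rw [hρ]
    exact this.symm
  set g' : K := g / m with hg'
  have hgm : g = g' * m := by rw [hg', div_mul_cancel₀ _ hm0]
  have hgq : g' ^ q = w * ∏ i, x i ^ ρ i := by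
    rw [hg', div_pow, hg, hmq]
    field_simp
  have hρA : (∏ i, x i ^ ρ i) ∈ A := A.prod_mem fun i _ => zpow_mem_of (hx i) (Or.inl (hρ0 i))
  have hg'A : g' ∈ A := mem_of_pow_mem hfr hq (by rw [hgq]; exact A.mul_mem hw hρA)
  -- the components which occur are empty
  have hunit : ∀ i, ρ i ≠ 0 → (x i)⁻¹ ∈ A := by
    intro i hi
    have hpos : 0 < ρ i := lt_of_le_of_ne (hρ0 i) (Ne.symm hi)
    have hP : (∏ l ∈ Finset.univ.erase i, x l ^ ρ l) ∈ A :=
      A.prod_mem fun l _ => zpow_mem_of (hx l) (Or.inl (hρ0 l))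
    have hsplit : (∏ l, x l ^ ρ l) = x i ^ ρ i * ∏ l ∈ Finset.univ.erase i, x l ^ ρ l :=
      (Finset.mul_prod_erase Finset.univ (fun l => x l ^ ρ l) (Finset.mem_univ i)).symm
    have hdvd : (⟨x i, hx i⟩ : A) ∣ (⟨g', hg'A⟩ : A) ^ q := by
      refine ⟨⟨w * (x i ^ (ρ i - 1) * ∏ l ∈ Finset.univ.erase i, x l ^ ρ l),
        A.mul_mem hw (A.mul_mem (zpow_mem_of (hx i) (Or.inl (by omega))) hP)⟩, Subtype.ext ?_⟩
      change g' ^ q = x i * (w * (x i ^ (ρ i - 1) * ∏ l ∈ Finset.univ.erase i, x l ^ ρ l))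
      rw [hgq, hsplit]
      have e : x i ^ ρ i = x i * x i ^ (ρ i - 1) := by
        rw [zpow_sub_one₀ (hx0 i)]
        field_simp [hx0 i]
      rw [e]
      ring
    obtain ⟨b, hb⟩ := dvd_of_dvd_pow (k := k) (⟨x i, hx i⟩ : A) (by
      intro κ _ _ φ hφ
      obtain ⟨D, hD, -⟩ := hS κ φ i (hx i) hφ
      exact ⟨D, by rw [hD]; exact one_ne_zero⟩) _ q hdvd
    have hb' : g' = x i * b := congrArg Subtype.val hb
    let y : I → K := fun l => if l = i then 1 else x l
    have hyi : y i = 1 := if_pos rfl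
    have hyl : ∀ l, l ≠ i → y l = x l := fun l hl => if_neg hl
    have hy : ∀ l, y l ∈ A := by
      intro l
      by_cases h : l = i
      · rw [h, hyi]
        exact A.one_mem
      · rw [hyl l h]
        exact hx l
    have hy0 : ∀ l, y l ≠ 0 := by
      intro l
      by_cases h : l = i
      · rw [h, hyi]
        exact one_ne_zero
      · rw [hyl l h]
        exact hx0 l
    rw [← one_div]
    refine div_mem_of_prod_mul (snc_option hS hx i y hyi hyl) (hx i) hy (hx0 i) hy0 ρ A.one_mem ?_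
    have e1 : (∏ l, y l ^ ρ l) = ∏ l ∈ Finset.univ.erase i, x l ^ ρ l := by
      rw [← Finset.mul_prod_erase Finset.univ (fun l => y l ^ ρ l) (Finset.mem_univ i), hyi,
        one_zpow, one_mul]
      exact Finset.prod_congr rfl fun l hl => by rw [hyl l (Finset.ne_of_mem_erase hl)]
    have e2 : (∏ l ∈ Finset.univ.erase i, x l ^ ρ l) * (1 / x i) =
        w⁻¹ * (x i ^ ((q : ℤ) - ρ i - 1) * (b : K) ^ q) := by
      have e3 : w * (x i ^ ρ i * ∏ l ∈ Finset.univ.erase i, x l ^ ρ l) =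
          x i ^ (q : ℤ) * (b : K) ^ q := by
        rw [← hsplit, ← hgq, hb', mul_pow, zpow_natCast]
      have hxi := hx0 i
      have e4 : x i ^ ((q : ℤ) - ρ i - 1) = x i ^ (q : ℤ) * (x i ^ ρ i)⁻¹ * (x i)⁻¹ := by
        rw [zpow_sub₀ hxi, zpow_sub₀ hxi, zpow_one, div_eq_mul_inv, div_eq_mul_inv]
      have e5 : x i ^ ρ i ≠ 0 := zpow_ne_zero _ hxi
      rw [e4]
      have e6 : w⁻¹ * (x i ^ (q : ℤ) * (x i ^ ρ i)⁻¹ * (x i)⁻¹ * (b : K) ^ q) =
          w⁻¹ * ((x i ^ (q : ℤ) * (b : K) ^ q) * (x i ^ ρ i)⁻¹ * (x i)⁻¹) := by ring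
      rw [e6, ← e3]
      field_simp
    rw [e1, e2]
    exact A.mul_mem hw' (A.mul_mem (zpow_mem_of (hx i) (Or.inl (by have := hρq i; omega)))
      (A.pow_mem b.2 q))
  have hginv : g'⁻¹ ∈ A := by
    refine mem_of_pow_mem hfr hq ?_
    rw [inv_pow, hgq, mul_inv, ← Finset.prod_inv_distrib]
    refine A.mul_mem hw' (A.prod_mem fun i _ => ?_)
    rw [← zpow_neg]
    by_cases h : ρ i = 0
    · rw [h, neg_zero, zpow_zero]
      exact A.one_mem
    · exact zpow_mem_of (hx i) (Or.inr (hunit i h))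
  refine ⟨g', ?_, hg'A, hginv, hgm⟩
  intro h0
  have h1 : g' ^ q ≠ 0 := by
    rw [hgq]
    exact mul_ne_zero hw0 (Finset.prod_ne_zero_iff.2 fun i _ => zpow_ne_zero _ (hx0 i))
  exact h1 (by rw [h0, zero_pow hq])

end ism

section model

variable {k K : Type u} [Field k] [Field K] [Algebra k K] {R0 R : Subalgebra k K} {T I : Type}
  [Fintype I] {M : LM R0 R T I}

theorem isB_of_pow (hFr : Frc M) {g : K} {q : ℕ} (hq : q ≠ 0) (h : IsB M (g ^ q)) : IsB M g := by
  obtain ⟨γ, h⟩ := h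
  refine ⟨fun i => γ i / q, fun t => ?_⟩
  have := M.sm t
  exact isM_of_pow (M.snc t) (M.xA t) (M.x0 t) (hFr t) hq (h t)

/-- **Roots of boundary functions.** -/
theorem isBr_of_pow (hFr : Frc M) {g : K} {q : ℕ} (hq : q ≠ 0) (h : IsBr M (g ^ q)) :
    IsBr M g := by
  obtain ⟨N, hN, h⟩ := h
  refine ⟨N, hN, isB_of_pow hFr hq ?_⟩
  rw [← pow_mul, mul_comm N q, pow_mul]
  exact h

end model

end Pool.Agent.N762.RC2
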