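import Pool.Agent.N762.RC.RPow

/-!
A transcendence basis of coordinates, of greatest exponents, over which the field is separable.
-/

set_option autoImplicit false
set_option linter.unusedVariables false
set_option linter.unusedSectionVars false

universe u

open Polynomial Pool.Agent.W558 Pool.Agent.W498.Tor Pool.Agent.W418.LCI Pool.Agent.N98
  Pool.Agent.N762.RC

namespace Pool.Agent.N762.RC2

section sep

lemma sep_of_root {L K : Type*} [Field L] [Field K] [Algebra L K] {D : ℕ}
    (hD : ((Nat.factorial D : ℕ) : L) ≠ 0) {z : K} {H : L[X]} (hH : H ≠ 0) (hd : H.natDegree ≤ D)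
    (hz : aeval z H = 0) : IsSeparable L z := by
  have halg : IsAlgebraic L z := ⟨H, hH, hz⟩
  have hint : IsIntegral L z := halg.isIntegral
  have hirr := minpoly.irreducible hint
  have hdeg : (minpoly L z).natDegree ≤ D :=
    (Polynomial.natDegree_le_of_dvd (minpoly.dvd L z hz) hH).trans hd
  have h1 := iter_ne (k := L) (L := L) hD hirr.ne_zero hdeg 1 (minpoly.natDegree_pos hint)
  exact (Polynomial.separable_iff_derivative_ne_zero hirr).2 h1

variable {E Ω : Type*} [Field E] [Field Ω] [Algebra E Ω]

lemma sep_mono {B0 B1 : IntermediateField E Ω} (h : B0 ≤ B1) {z : Ω} (hz : IsSeparable B0 z) :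
    IsSeparable B1 z := by
  let _ : Algebra B0 B1 := (IntermediateField.inclusion h).toRingHom.toAlgebra
  have : IsScalarTower B0 B1 Ω := IsScalarTower.of_algebraMap_eq fun _ => rfl
  exact hz.tower_top B1

lemma tr_adjoin {m : ℕ} {w : Fin m → Ω} {L : IntermediateField E Ω} (hw : ∀ a, w a ∈ L) {z : Ω}
    (hz : Transcendental L z) : Transcendental (Algebra.adjoin E (Set.range w)) z := by
  have hle : Algebra.adjoin E (Set.range w) ≤ L.toSubalgebra := by
    rw [Algebra.adjoin_le_iff]
    rintro _ ⟨a, rfl⟩
    exact hw a
  rintro ⟨P, hP, hPz⟩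
  refine hz ⟨P.map (Subalgebra.inclusion hle).toRingHom, ?_, ?_⟩
  · rw [Ne, Polynomial.map_eq_zero_iff]
    · exact hP
    · exact Subalgebra.inclusion_injective hle
  · rw [aeval_def] at hPz ⊢
    rw [eval₂_map]
    exact hPz

end sep

section main

variable (p : ℕ) [Fact p.Prime] {E : Type u} [Field E] [CharP E p]

/-- **Separability.** There are coordinates which are algebraically independent such that the field
is separable over the field generated by them. -/
theorem sepb {D e : ℕ} (hDp : D < p) {Ω : Type u} [Field Ω] [Algebra E Ω] :
    ∀ (n : ℕ) (ε : Fin n → ℕ), Monotone ε → (∀ i, ε i ≤ e) → ∀ (K : Type u) [Field K]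
      [Algebra E K] (x : Fin n → K) (ι : K →ₐ[E] Ω), Rel p E D e n ε K x →
      ∃ (m : ℕ) (j : Fin m → Fin n), StrictMono j ∧
        AlgebraicIndependent E (fun a => ι (x (j a))) ∧
        ∀ i, IsSeparable (IntermediateField.adjoin E (Set.range fun a => ι (x (j a))))
          (ι (x i)) := by
  classical
  intro n
  induction n with
  | zero =>
    intro ε _ _ K _ _ x ι _
    refine ⟨0, Fin.elim0, fun a => a.elim0, ?_, fun i => i.elim0⟩
    rw [algebraicIndependent_empty_type_iff]
    exact (algebraMap E Ω).injective
  | succ n ih =>
    intro ε hmono hle K _ _ x ι hrel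
    have hc0 : ∀ i, ε 0 ≤ ε i := fun i => hmono (Fin.zero_le i)
    obtain ⟨hr1, -⟩ := Rel.shift p E (hle 0) (n + 1) ε K x hc0 hrel
    obtain ⟨m, j, hj, hind, hsep⟩ := ih (ε ∘ Fin.succ)
      (fun a b hab => hmono (Fin.succ_le_succ_iff.2 hab)) (fun i => hle _) (LF (E := E) x)
      (tl E x) (ι.comp (LF (E := E) x).val) hrel.2
    change AlgebraicIndependent E (fun a => ι (x (j a).succ)) at hind
    change ∀ i : Fin n, IsSeparable (IntermediateField.adjoin E
      (Set.range fun a => ι (x (j a).succ))) (ι (x i.succ)) at hsep
    set B0 := IntermediateField.adjoin E (Set.range fun a => ι (x (j a).succ)) with hB0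
    by_cases hT : Transcendental (LF (E := E) x) (x 0)
    · -- a new element of the basis
      let j' : Fin (m + 1) → Fin (n + 1) := Fin.cons 0 (fun a => (j a).succ)
      have hj'0 : j' 0 = 0 := rfl
      have hj's : ∀ a, j' (Fin.succ a) = (j a).succ := fun a => rfl
      refine ⟨m + 1, j', ?_, ?_, ?_⟩
      · intro a b
        refine Fin.cases ?_ (fun a => ?_) a
        · refine Fin.cases ?_ (fun b => ?_) b
          · intro h
            exact absurd h (lt_irrefl _)
          · intro _
            rw [hj'0, hj's]
            exact Fin.succ_pos _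
        · refine Fin.cases ?_ (fun b => ?_) b
          · intro h
            exact absurd h (Fin.not_lt_zero _)
          · intro h
            rw [hj's, hj's]
            exact Fin.succ_lt_succ_iff.2 (hj (Fin.succ_lt_succ_iff.1 h))
      · have hindK : AlgebraicIndependent E (fun a => x (j a).succ) :=
          AlgebraicIndependent.of_comp ι hind
        have h1 : Transcendental (Algebra.adjoin E (Set.range fun a => x (j a).succ)) (x 0) :=
          tr_adjoin (L := LF (E := E) x) (fun a => (tl E x (j a)).2) hT
        have h2 := (hindK.option_iff_transcendental (x 0)).2 h1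
        have h3 := h2.comp (_root_.finSuccEquiv m) (_root_.finSuccEquiv m).injective
        have h4 : (fun o : Option (Fin m) => o.elim (x 0) fun a => x (j a).succ) ∘
            (_root_.finSuccEquiv m) = fun a => x (j' a) := by
          funext a
          refine Fin.cases ?_ (fun a => ?_) a
          · rw [Function.comp_apply, finSuccEquiv_zero, hj'0]
            rfl
          · rw [Function.comp_apply, finSuccEquiv_succ, hj's]
            rfl
        rw [h4] at h3
        exact h3.map' (f := ι) ι.injective
      · have hle' : B0 ≤ IntermediateField.adjoin E (Set.range fun a => ι (x (j' a))) := by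
          rw [hB0]
          refine IntermediateField.adjoin.mono E _ _ ?_
          rintro _ ⟨a, rfl⟩
          exact ⟨a.succ, rfl⟩
        intro i
        refine Fin.cases ?_ (fun i => ?_) i
        · have hmem : ι (x 0) ∈ IntermediateField.adjoin E (Set.range fun a => ι (x (j' a))) :=
            IntermediateField.subset_adjoin _ _ ⟨0, rfl⟩
          exact isSeparable_algebraMap (F := IntermediateField.adjoin E
            (Set.range fun a => ι (x (j' a)))) (⟨ι (x 0), hmem⟩ : IntermediateField.adjoin E
            (Set.range fun a => ι (x (j' a))))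
        · exact sep_mono hle' (hsep i)
    · -- an algebraic element
      refine ⟨m, fun a => (j a).succ, fun a b hab => Fin.succ_lt_succ_iff.2 (hj hab), hind, ?_⟩
      intro i
      refine Fin.cases ?_ (fun i => hsep i) i
      obtain ⟨G, hG, hG0, hG1⟩ := hr1.resolve_left hT
      set H : (LF (E := E) x)[X] := G.map (ev p (tl E x) (e - ε 0) ((fun i => ε i - ε 0) ∘
        Fin.succ)) with hH
      have hHz : aeval (x 0) H = 0 := by
        rw [hH, aeval_def, eval₂_map]
        have hx0 : x 0 ^ p ^ (ε 0 - ε 0) = x 0 := by
          rw [Nat.sub_self, pow_zero, pow_one]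
        dsimp only at hG1
        rw [hx0] at hG1
        exact hG1
      have hHd : H.natDegree ≤ D := natDegree_map_le.trans hG.natDegree
      let L2 := IntermediateField.adjoin B0 (Set.range fun i : Fin n => ι (x i.succ))
      have hL2 : Algebra.IsSeparable B0 L2 := by
        refine (IntermediateField.isSeparable_adjoin_iff_isSeparable B0 Ω).2 ?_
        rintro _ ⟨i, rfl⟩
        exact hsep i
      have hmem : ∀ l : LF (E := E) x, ι (l : K) ∈ L2 := by
        intro l
        have h1 : LF (E := E) x ≤ (L2.restrictScalars E).comap ι := by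
          unfold LF
          rw [IntermediateField.adjoin_le_iff]
          rintro _ ⟨i, rfl⟩
          exact IntermediateField.subset_adjoin B0 _ ⟨i, rfl⟩
        exact h1 l.2
      let f : LF (E := E) x →+* L2 :=
        ((ι : K →+* Ω).comp (algebraMap (LF (E := E) x) K)).codRestrict L2.toSubring
          (fun l => hmem l)
      have hf : ∀ l, ((f l : L2) : Ω) = ι (l : K) := fun l => rfl
      have hchar : ((Nat.factorial D : ℕ) : L2) ≠ 0 := by
        have h1 : ((Nat.factorial D : ℕ) : E) ≠ 0 :=
          factorial_ne_zero_of_lt p (Fact.out : p.Prime) hDp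
        rw [← map_natCast (f.comp (algebraMap E (LF (E := E) x)))]
        exact (_root_.map_ne_zero _).2 h1
      have h2 : IsSeparable L2 (ι (x 0)) := by
        refine sep_of_root hchar (H := H.map f) ?_ (natDegree_map_le.trans hHd) ?_
        · rw [Ne, Polynomial.map_eq_zero]
          exact hG0
        · rw [aeval_def, eval₂_map]
          have h3 := hom_eval₂ H (algebraMap (LF (E := E) x) K) (ι : K →+* Ω) (x 0)
          have h4 : (algebraMap L2 Ω).comp f =
              (ι : K →+* Ω).comp (algebraMap (LF (E := E) x) K) := RingHom.ext fun l => rfl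
          rw [h4]
          rw [aeval_def] at hHz
          rw [hHz, map_zero] at h3
          exact h3.symm
      exact IsSeparable.of_algebra_isSeparable_of_isSeparable B0 (E := L2) h2

end main

end Pool.Agent.N762.RC2
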