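import Pool.Agent.N762.RC2.Prp
import Pool.Agent.N762.RC2.Root

/-!
Models of the inverse images of varieties of bounded degree under the maps which raise the
coordinates to powers with exponents powers of the characteristic: the bound depends on the
dimension.
-/

set_option autoImplicit false
set_option linter.unusedVariables false
set_option linter.unusedSimpArgs false
set_option linter.unusedSectionVars false

universe u

open scoped IntermediateField.algebraAdjoinAdjoin

open MvPolynomial Pool.Agent.W558 Pool.Agent.W418.LCI Pool.Agent.N98 Pool.Agent.N762.RC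

namespace Pool.Agent.N762.RC2

section proj

variable (p : ℕ) [Fact p.Prime] {F E K : Type u} [Field F] [Field E] [Field K] [CharP E p]
  [Algebra F E] [Algebra.IsAlgebraic F E] [Algebra E K] [Algebra F K] [IsScalarTower F E K]

/-- **Projection to a hypersurface**, for twisted coordinates. -/
theorem proj [Infinite F] {N : ℕ} (x : Fin N → K) (ε : Fin N → ℕ) (e : ℕ) (hmono : Monotone ε)
    (hε : ∀ i, ε i ≤ e) (ρ : F →+* E) (hρ : ∀ a, (ρ a) ^ p ^ e = algebraMap F E a)
    (htop : IntermediateField.adjoin E (Set.range x) = ⊤) (d δ C0 : ℕ)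
    (htr : Algebra.trdeg F K = d)
    (hδ : ∀ t : ℕ, d.factorial * Module.finrank F (img F (fun j => x j ^ p ^ ε j) t) ≤
      δ * (t + C0) ^ d) (hδp : δ < p) :
    ∃ (y : Fin (d + 1) → K) (η : Fin (d + 1) → ℕ) (W : MvPolynomial (Fin (d + 1)) F)
      (V : Fin N → MvPolynomial (Fin (d + 1)) F), Monotone η ∧ (∀ i, η i ≤ e) ∧
      IntermediateField.adjoin E (Set.range y) = ⊤ ∧ Rel p E δ e (d + 1) η K y ∧
      W.totalDegree ≤ δ ∧ (∀ j, (V j).totalDegree ≤ δ) ∧
      aeval (fun i => y i ^ p ^ η i) W ≠ 0 ∧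
      ∀ j, aeval (fun i => y i ^ p ^ η i) (V j) +
        aeval (fun i => y i ^ p ^ η i) W * x j ^ p ^ ε j = 0 := by
  classical
  have hp0 : p ≠ 0 := (Fact.out : p.Prime).ne_zero
  have hK : CharP K p := charP_of_injective_algebraMap (algebraMap E K).injective p
  have hRel : Rel p E δ e N ε K x :=
    rel_of_growth' p x ε htop d δ C0 htr hδ e ρ hρ N ε K x (AlgHom.id E K)
      (fun i => ⟨i, rfl, rfl⟩) htop
  obtain ⟨m, j, hj, hind, hsep⟩ := sepb p hδp N ε hmono hε K x (AlgHom.id E K) hRel
  let v : Fin m → K := fun a => x (j a)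
  have hv : AlgebraicIndependent E v := hind
  let B0 := IntermediateField.adjoin E (Set.range v)
  have hsep' : ∀ i, IsSeparable B0 (x i) := hsep
  -- the transcendence degree
  have htop0 : IntermediateField.adjoin B0 (Set.range x) = ⊤ := by
    have h1 := IntermediateField.adjoin_adjoin_left E (Set.range v) (Set.range x)
    have h2 : Set.range v ∪ Set.range x = Set.range x := by
      apply Set.union_eq_self_of_subset_left
      rintro _ ⟨a, rfl⟩
      exact ⟨j a, rfl⟩
    rw [h2, htop] at h1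
    exact IntermediateField.restrictScalars_eq_top_iff.1 h1
  have halg0 : Algebra.IsAlgebraic B0 K := by
    have h1 : Algebra.IsAlgebraic B0 (IntermediateField.adjoin B0 (Set.range x)) := by
      refine IntermediateField.isAlgebraic_adjoin ?_
      rintro _ ⟨i, rfl⟩
      exact (hsep' i).isIntegral
    refine ⟨fun z => ?_⟩
    have hz : z ∈ IntermediateField.adjoin B0 (Set.range x) := by
      rw [htop0]
      trivial
    exact (h1.isAlgebraic ⟨z, hz⟩).algHom (IntermediateField.val _)
  have hvb : IsTranscendenceBasis E v := by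
    rw [hv.isTranscendenceBasis_iff_isAlgebraic]
    exact (IsFractionRing.comap_isAlgebraic_iff (A := Algebra.adjoin E (Set.range v))
      (K := IntermediateField.adjoin E (Set.range v)) (C := K)).2 halg0
  have hmd : m = d := by
    have h1 := hvb.lift_cardinalMk_eq_trdeg
    have h2 : Algebra.trdeg F E + Algebra.trdeg E K = Algebra.trdeg F K := trdeg_add_eq F E
    have h3 : Algebra.trdeg F E = 0 := trdeg_eq_zero
    rw [h3, zero_add, htr] at h2
    rw [h2, Cardinal.mk_fin, Cardinal.lift_natCast, Cardinal.lift_natCast, Nat.cast_inj] at h1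
    exact h1
  subst hmd
  -- the projection
  let t : Fin N → K := fun i => x i ^ p ^ ε i
  let u : Fin m → K := fun a => v a ^ p ^ ε (j a)
  have hvF : AlgebraicIndependent F v :=
    hv.restrictScalars (algebraMap F E).injective
  have hu : AlgebraicIndependent F u := ind_pow hvF _ fun a => pow_ne_zero _ hp0
  have hut : ∀ a, u a ∈ img F t 1 := by
    intro a
    unfold img
    rw [Submodule.mem_map]
    refine ⟨X (j a), ?_, ?_⟩
    · rw [mem_restrictTotalDegree]
      exact (totalDegree_X _).le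
    · change aeval t (X (j a)) = u a
      rw [aeval_X]
  have hchar : ((Nat.factorial δ : ℕ) : F) ≠ 0 := by
    have h1 : ((Nat.factorial δ : ℕ) : E) ≠ 0 :=
      factorial_ne_zero_of_lt p (Fact.out : p.Prime) hδp
    intro h
    apply h1
    rw [← map_natCast (algebraMap F E), h, map_zero]
  obtain ⟨c, P, W, V, hP, hPδ, hker, hWδ, hW, hVδ, hV⟩ := spz2 t u hu hut δ C0 hδ hchar
  let z0 : K := ∑ i, algebraMap F K (c i) * t i
  let y : Fin (m + 1) → K := Fin.cons z0 v
  let η : Fin (m + 1) → ℕ := Fin.cons 0 fun a => ε (j a)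
  have hyη : (fun i => y i ^ p ^ η i) = sy t u c := by
    funext i
    refine Fin.cases ?_ (fun a => ?_) i
    · change z0 ^ p ^ 0 = z0
      rw [pow_zero, pow_one]
    · rfl
  have hη : Monotone η := by
    intro a b
    refine Fin.cases ?_ (fun a => ?_) a
    · intro _
      exact Nat.zero_le _
    · refine Fin.cases ?_ (fun b => ?_) b
      · intro h
        exact absurd h (not_le.2 (Fin.succ_pos a))
      · intro h
        exact hmono (hj.monotone (Fin.succ_le_succ_iff.1 h))
  have hηe : ∀ i, η i ≤ e := by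
    intro i
    refine Fin.cases ?_ (fun a => ?_) i
    · exact Nat.zero_le _
    · exact hε _
  have htop' : IntermediateField.adjoin E (Set.range y) = ⊤ := by
    set K2 := IntermediateField.adjoin E (Set.range y) with hK2
    have hyK : ∀ i, y i ∈ K2 := fun i => IntermediateField.subset_adjoin _ _ ⟨i, rfl⟩
    have hB0 : B0 ≤ K2 := by
      refine IntermediateField.adjoin_le_iff.2 ?_
      rintro _ ⟨a, rfl⟩
      exact hyK a.succ
    have hag : ∀ g : MvPolynomial (Fin (m + 1)) F, aeval (sy t u c) g ∈ K2 := by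
      intro g
      rw [← hyη]
      induction g using MvPolynomial.induction_on with
      | C a =>
        rw [aeval_C, IsScalarTower.algebraMap_apply F E K]
        exact K2.algebraMap_mem _
      | add a b ha hb =>
        rw [map_add]
        exact add_mem ha hb
      | mul_X a i ha =>
        rw [map_mul, aeval_X]
        exact mul_mem ha (pow_mem (hyK i) _)
    have htK : ∀ i, t i ∈ K2 := by
      intro i
      have h1 : t i = -aeval (sy t u c) (V i) / aeval (sy t u c) W := by
        rw [eq_div_iff hW, eq_neg_iff_add_eq_zero, mul_comm, add_comm]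
        exact hV i
      rw [h1]
      exact div_mem (neg_mem (hag _)) (hag _)
    rw [eq_top_iff, ← htop, IntermediateField.adjoin_le_iff]
    rintro _ ⟨i, rfl⟩
    exact mem_of_pow p K2 (sep_mono hB0 (hsep' i)) (ε i) (htK i)
  refine ⟨y, η, W, V, hη, hηe, htop', ⟨Or.inr ⟨finSuccEquiv E m (MvPolynomial.map ρ P), ?_, ?_,
    ?_⟩, ?_⟩, hWδ, hVδ, ?_, ?_⟩
  · intro i hi
    refine (totalDegree_coeff_finSuccEquiv_add_le _ i hi).trans (le_trans ?_ hPδ)
    exact Finset.sup_mono (support_map_subset _ _)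
  · rw [map_fse2 p ρ hρ (tl E y) (η ∘ Fin.succ) P]
    have hvt : AlgebraicIndependent F (tl E y) := by
      refine AlgebraicIndependent.of_comp
        ((LF (E := E) y).val.restrictScalars F : LF (E := E) y →ₐ[F] K) ?_
      exact hvF
    have hinj : Function.Injective ((aeval (fun c => tl E y c ^ p ^ (η ∘ Fin.succ) c) :
        MvPolynomial (Fin m) F →ₐ[F] LF (E := E) y) :
        MvPolynomial (Fin m) F →+* LF (E := E) y) :=
      ind_pow hvt (fun c => p ^ (η ∘ Fin.succ) c) (fun c => pow_ne_zero _ hp0)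
    intro h0
    apply hP.ne_zero
    apply (finSuccEquiv F m).injective
    apply Polynomial.map_injective _ hinj
    rw [h0, map_zero, Polynomial.map_zero]
  · rw [ev_fse, ev_root' p ρ hρ, hyη]
    exact (hker P).2 dvd_rfl
  · refine rel_ind p δ e m _ _ _ ?_
    refine AlgebraicIndependent.of_comp (LF (E := E) y).val ?_
    exact hv
  · rw [hyη]
    exact hW
  · intro i
    rw [hyη]
    exact hV i

end proj

section main

/-- Powers with exponents powers of the characteristic; the bound depends on the dimension. -/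
theorem upow_models (p : ℕ) [Fact p.Prime] {k F E K : Type u} [Field k] [Field F] [Infinite F]
    [Field E] [Field K] [CharP E p] [Algebra k E] [Algebra F E] [Algebra.IsAlgebraic F E]
    [Algebra E K] [Algebra F K] [IsScalarTower F E K] [Algebra k K] [IsScalarTower k E K]
    (hE : HasLM k E)
    {N : ℕ} (x : Fin N → K) (ε : Fin N → ℕ) (e : ℕ) (hε : ∀ i, ε i ≤ e)
    (ρ : F →+* E) (hρ : ∀ a, (ρ a) ^ p ^ e = algebraMap F E a)
    (htop : IntermediateField.adjoin E (Set.range x) = ⊤) (d δ C0 : ℕ)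
    (htr : Algebra.trdeg F K = d)
    (hδ : ∀ t : ℕ, d.factorial * Module.finrank F (img F (fun j => x j ^ p ^ ε j) t) ≤
      δ * (t + C0) ^ d) (s : ℕ) (hs : 1 ≤ s)
    (hD : ((Nat.factorial ((s * δ) ^ 2 ^ d) : ℕ) : k) ≠ 0)
    (B : Type) [Finite B] (G : B → MvPolynomial (Fin N) F)
    (hG : ∀ b, aeval (fun i => x i ^ p ^ ε i) (G b) ≠ 0) (hdeg : ∀ b, (G b).totalDegree ≤ s)
    (C' : Type) [Finite C'] (c : C' → E) (hc : ∀ i, c i ≠ 0) :
    ∃ (T I : Type) (_ : Finite T) (_ : Fintype I) (M : LM (⊥ : Subalgebra k K) ⊤ T I),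
      Frc M ∧ (∀ b, IsBr M (aeval (fun i => x i ^ p ^ ε i) (G b))) ∧
      (∀ i, IsBr M (algebraMap E K (c i))) ∧ ∀ i, x i ≠ 0 → IsBr M (x i) := by
  classical
  have hp0 : p ≠ 0 := (Fact.out : p.Prime).ne_zero
  have hδ1 : 1 ≤ δ := one_le_of_growth (fun j => x j ^ p ^ ε j) d δ C0 hδ
  have hδD : δ ≤ s * δ := Nat.le_mul_of_pos_left δ hs
  have hD1 : 1 ≤ s * δ := hδ1.trans hδD
  have hδp : δ < p := by
    by_contra hcon
    push Not at hcon
    apply hD
    have h1 : p ∣ Nat.factorial ((s * δ) ^ 2 ^ d) := by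
      refine Nat.dvd_factorial (Fact.out : p.Prime).pos (hcon.trans (hδD.trans ?_))
      exact Nat.le_self_pow (by positivity) _
    have h2 : ((Nat.factorial ((s * δ) ^ 2 ^ d) : ℕ) : E) = 0 :=
      (CharP.cast_eq_zero_iff E p _).2 h1
    apply (algebraMap k E).injective
    rw [map_natCast, h2, map_zero]
  let σ := Tuple.sort ε
  have hrange : Set.range (x ∘ σ) = Set.range x := σ.surjective.range_comp x
  have htop' : IntermediateField.adjoin E (Set.range (x ∘ σ)) = ⊤ := by rw [hrange, htop]
  have hδ' : ∀ t : ℕ, d.factorial *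
      Module.finrank F (img F (fun j => (x ∘ σ) j ^ p ^ (ε ∘ σ) j) t) ≤ δ * (t + C0) ^ d := by
    intro t
    refine le_trans (Nat.mul_le_mul_left _ ?_) (hδ t)
    have hfin : FiniteDimensional F (img F (fun j => x j ^ p ^ ε j) t) := by
      unfold img
      infer_instance
    exact Submodule.finrank_mono (img_le_of_comp (fun j => x j ^ p ^ ε j) σ t)
  obtain ⟨y, η, W, V, hη, hηe, hytop, hyrel, hWδ, hVδ, hW, hV⟩ := proj p (x ∘ σ) (ε ∘ σ) e
    (Tuple.monotone_sort ε) (fun i => hε (σ i)) ρ hρ htop' d δ C0 htr hδ' hδp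
  have hM := main p k E hE (d + 1) (s * δ) hD1 (fun _ => by rw [Nat.add_sub_cancel]; exact hD)
    e η hη hηe K y hytop (Rel.mono p E hδD _ _ _ _ hyrel) C' c hc
  -- the polynomials
  let Q : B ⊕ {i : Fin N // (x ∘ σ) i ≠ 0} → MvPolynomial (Fin N) F :=
    Sum.elim (fun b => rename σ.symm (G b)) fun i => X i.1
  have hQs : ∀ b, (Q b).totalDegree ≤ s := by
    rintro (b | i)
    · exact (totalDegree_rename_le σ.symm (G b)).trans (hdeg b)
    · exact (totalDegree_X (R := F) i.1).le.trans hs
  have hQb : ∀ b, aeval (fun i => (x ∘ σ) i ^ p ^ (ε ∘ σ) i) (Q (Sum.inl b)) =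
      aeval (fun i => x i ^ p ^ ε i) (G b) := by
    intro b
    change aeval _ (rename σ.symm (G b)) = _
    rw [aeval_rename]
    congr 2
    funext i
    simp only [Function.comp_apply, Equiv.apply_symm_apply]
  have hQi : ∀ i, aeval (fun i => (x ∘ σ) i ^ p ^ (ε ∘ σ) i) (Q (Sum.inr i)) =
      (x ∘ σ) i.1 ^ p ^ (ε ∘ σ) i.1 := by
    intro i
    change aeval _ (X i.1) = _
    rw [aeval_X]
  have hQ0 : ∀ b, aeval (fun i => (x ∘ σ) i ^ p ^ (ε ∘ σ) i) (Q b) ≠ 0 := by
    rintro (b | i)
    · rw [hQb]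
      exact hG b
    · rw [hQi]
      exact pow_ne_zero _ i.2
  have hH := fun b => homog (fun i => (x ∘ σ) i ^ p ^ (ε ∘ σ) i) (fun i => y i ^ p ^ η i) V W δ s
    hVδ hWδ hV (Q b) (hQs b)
  choose H hHd hHe using hH
  obtain ⟨T, I, hT, hI, M, hFr, hM1, hM2⟩ := hM
    (Option (B ⊕ {i : Fin N // (x ∘ σ) i ≠ 0}))
    (fun o => MvPolynomial.map ρ (o.elim W H)) (by
      rintro (_ | b)
      · rw [ev_root' p ρ hρ]
        exact hW
      · rw [ev_root' p ρ hρ]
        change aeval _ (H b) ≠ 0
        rw [hHe]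
        exact mul_ne_zero (hQ0 b) (pow_ne_zero _ hW))
    (by
      intro o
      refine le_trans (Finset.sup_mono (support_map_subset _ _)) ?_
      rcases o with _ | b
      · exact hWδ.trans hδD
      · exact hHd b)
  have hMW : IsBr M (aeval (fun i => y i ^ p ^ η i) W) := by
    have h1 := hM1 none
    rw [ev_root' p ρ hρ] at h1
    exact h1
  have hMQ : ∀ b, IsBr M (aeval (fun i => (x ∘ σ) i ^ p ^ (ε ∘ σ) i) (Q b)) := by
    intro b
    have h1 := hM1 (some b)
    rw [ev_root' p ρ hρ] at h1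
    change IsBr M (aeval _ (H b)) at h1
    rw [hHe] at h1
    have h2 := h1.mul (hMW.pow s).inv
    rw [mul_assoc, mul_inv_cancel₀ (pow_ne_zero _ hW), mul_one] at h2
    exact h2
  refine ⟨T, I, hT, hI, M, hFr, fun b => by rw [← hQb]; exact hMQ _, fun i => hM2 (Sum.inl i),
    fun i hi => ?_⟩
  have h0 : (x ∘ σ) (σ.symm i) ≠ 0 := by
    change x (σ (σ.symm i)) ≠ 0
    rw [Equiv.apply_symm_apply]
    exact hi
  have h1 := hMQ (Sum.inr ⟨σ.symm i, h0⟩)
  rw [hQi] at h1
  have h2 := isBr_of_pow hFr (pow_ne_zero _ hp0) h1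
  change IsBr M (x (σ (σ.symm i))) at h2
  rw [Equiv.apply_symm_apply] at h2
  exact h2

end main

end Pool.Agent.N762.RC2
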